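import Mathlib
set_option autoImplicit false
open Set Filter Metric Topology

namespace Pool.Agent.H.MP_385b3e_gt
variable {X : Type} [MetricSpace X]

def Cn (δ : ℝ) (P : Set X) : Prop :=
  ∀ S : Set X, ∀ x ∈ P, ∀ y ∈ P, x ∈ S → y ∉ S → ∃ u ∈ P, ∃ w ∈ P, u ∈ S ∧ w ∉ S ∧ dist u w < δ

def Dn (δ : ℝ) (P : Set X) : Prop := ∀ x, ∃ y ∈ P, dist x y < δ

def Ch (ρ η : ℝ) (φ : X → ℤ) (R : Set X) : Prop :=
  (∀ y ∈ R, ∀ y' ∈ R, dist y y' < ρ → φ y ≤ φ y' + 1) ∧ ∀ y ∈ R, ∀ y' ∈ R, φ y = φ y' → dist y y' ≤ η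

theorem Cn.mono {δ δ' : ℝ} {P : Set X} (h : Cn δ P) (hd : δ ≤ δ') : Cn δ' P := by
  intro S x hx y hy h1 h2
  obtain ⟨u, hu, w, hw, a, b, c⟩ := h S x hx y hy h1 h2
  exact ⟨u, hu, w, hw, a, b, c.trans_le hd⟩

theorem Dn.mono {δ δ' : ℝ} {P Q : Set X} (h : Dn δ P) (hd : δ ≤ δ') (hP : P ⊆ Q) : Dn δ' Q := by
  intro x
  obtain ⟨y, hy, a⟩ := h x
  exact ⟨y, hP hy, a.trans_le hd⟩

theorem Ch.neg {ρ η : ℝ} {φ : X → ℤ} {R : Set X} (h : Ch ρ η φ R) : Ch ρ η (fun x => -φ x) R := by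
  refine ⟨fun y hy y' hy' hd => ?_, fun y hy y' hy' hd => h.2 y hy y' hy' (neg_injective hd)⟩
  have := h.1 y' hy' y hy (by rwa [dist_comm])
  show -φ y ≤ -φ y' + 1
  omega

theorem Ch.mono {ρ ρ' η : ℝ} {φ : X → ℤ} {R R' : Set X} (h : Ch ρ η φ R) (hd : ρ' ≤ ρ) (hR : R' ⊆ R) :
    Ch ρ' η φ R' :=
  ⟨fun y hy y' hy' a => h.1 y (hR hy) y' (hR hy') (a.trans_le hd),
    fun y hy y' hy' a => h.2 y (hR hy) y' (hR hy') a⟩

theorem cn_pre {P : Set X} (hP : IsPreconnected P) {δ : ℝ} (hδ : 0 < δ) : Cn δ P := by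
  intro S x hx y hy h1 h2
  have := hP (⋃ u ∈ P ∩ S, ball u (δ / 2)) (⋃ u ∈ P \ S, ball u (δ / 2))
    (isOpen_biUnion fun _ _ => isOpen_ball) (isOpen_biUnion fun _ _ => isOpen_ball)
    (fun z hz => by
      by_cases h : z ∈ S
      · exact Or.inl (mem_biUnion (show z ∈ P ∩ S from ⟨hz, h⟩) (mem_ball_self (half_pos hδ)))
      · exact Or.inr (mem_biUnion (show z ∈ P \ S from ⟨hz, h⟩) (mem_ball_self (half_pos hδ))))
    ⟨x, hx, mem_biUnion (show x ∈ P ∩ S from ⟨hx, h1⟩) (mem_ball_self (half_pos hδ))⟩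
    ⟨y, hy, mem_biUnion (show y ∈ P \ S from ⟨hy, h2⟩) (mem_ball_self (half_pos hδ))⟩
  obtain ⟨z, -, ha, hb⟩ := this
  obtain ⟨u, hu, ha⟩ := mem_iUnion₂.1 ha
  obtain ⟨w, hw, hb⟩ := mem_iUnion₂.1 hb
  refine ⟨u, hu.1, w, hw.1, hu.2, hw.2, ?_⟩
  have := dist_triangle_left u w z
  rw [mem_ball] at ha hb
  linarith

theorem Cn.union {δ : ℝ} {P Q : Set X} (hP : Cn δ P) (hQ : Cn δ Q) {v : X} (h1 : v ∈ P) (h2 : v ∈ Q) :
    Cn δ (P ∪ Q) := by
  intro S x hx y hy hxS hyS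
  by_cases hv : v ∈ S
  · rcases hy with hy | hy
    · obtain ⟨u, hu, w, hw, a⟩ := hP S v h1 y hy hv hyS
      exact ⟨u, Or.inl hu, w, Or.inl hw, a⟩
    · obtain ⟨u, hu, w, hw, a⟩ := hQ S v h2 y hy hv hyS
      exact ⟨u, Or.inr hu, w, Or.inr hw, a⟩
  · rcases hx with hx | hx
    · obtain ⟨u, hu, w, hw, a⟩ := hP S x hx v h1 hxS hv
      exact ⟨u, Or.inl hu, w, Or.inl hw, a⟩
    · obtain ⟨u, hu, w, hw, a⟩ := hQ S x hx v h2 hxS hv
      exact ⟨u, Or.inr hu, w, Or.inr hw, a⟩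

theorem ivt {ρ η : ℝ} {φ : X → ℤ} {P : Set X} (hP : Cn ρ P) (h : Ch ρ η φ P) {x y z : X} (hx : x ∈ P)
    (hy : y ∈ P) (h1 : φ x ≤ φ z) (h2 : φ z ≤ φ y) : ∃ w ∈ P, φ w = φ z := by
  rcases h1.eq_or_lt with h1 | h1
  · exact ⟨x, hx, h1⟩
  obtain ⟨u, hu, w, hw, a, b, c⟩ := hP {p | φ p < φ z} x hx y hy h1 (not_lt.2 h2)
  have := h.1 w hw u hu (by rwa [dist_comm])
  simp only [mem_setOf_eq] at a b
  exact ⟨w, hw, by omega⟩

theorem side {ρ η δ : ℝ} {φ : X → ℤ} {P : Set X} (hP : Cn ρ P) (h : Ch ρ η φ P) (h1 : η < δ)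
    (h2 : ρ ≤ δ) (j : ℤ) : Cn δ {y ∈ P | j ≤ φ y} := by
  intro S
  by_contra hc
  have hn : ∀ u ∈ P, ∀ w ∈ P, j ≤ φ u → j ≤ φ w → dist u w < δ → (u ∈ S ↔ w ∈ S) := by
    intro u hu w hw a b c
    constructor
    · intro d
      by_contra e
      exact hc fun _ _ _ _ _ _ => ⟨u, ⟨hu, a⟩, w, ⟨hw, b⟩, d, e, c⟩
    · intro d
      by_contra e
      exact hc fun _ _ _ _ _ _ => ⟨w, ⟨hw, b⟩, u, ⟨hu, a⟩, d, e, by rwa [dist_comm]⟩
  have key : ∀ n : ℕ, ∀ x ∈ P, ∀ y ∈ P, j ≤ φ x → φ y = φ x + n → (x ∈ S ↔ y ∈ S) := by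
    intro n
    induction n with
    | zero =>
      intro x hx y hy a b
      exact hn x hx y hy a (by omega) ((h.2 x hx y hy (by omega)).trans_lt h1)
    | succ n ih =>
      intro x hx y hy a b
      obtain ⟨u, hu, w, hw, c, d, e⟩ := hP {p | φ p ≤ φ x + n} x hx y hy
        (by simp only [mem_setOf_eq]; omega) (by simp only [mem_setOf_eq]; omega)
      have := h.1 w hw u hu (by rwa [dist_comm])
      simp only [mem_setOf_eq] at c d
      rw [ih x hx u hu a (by omega), hn u hu w hw (by omega) (by omega) (e.trans_le h2)]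
      exact hn w hw y hy (by omega) (by omega) ((h.2 w hw y hy (by omega)).trans_lt h1)
  apply hc
  intro x hx y hy a b
  exfalso
  rcases le_total (φ x) (φ y) with c | c
  · exact b ((key (φ y - φ x).toNat x hx.1 y hy.1 hx.2 (by omega)).1 a)
  · exact b ((key (φ x - φ y).toNat y hy.1 x hx.1 hy.2 (by omega)).2 a)

def Rch (ρ : ℝ) (Y : Set X) (v : X) : Set X :=
  {y | Relation.ReflTransGen (fun u w => w ∈ Y ∧ dist u w < ρ) v y}

theorem rch_self {ρ : ℝ} {Y : Set X} {v : X} : v ∈ Rch ρ Y v := Relation.ReflTransGen.refl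

theorem rch_step {ρ : ℝ} {Y : Set X} {v u w : X} (hu : u ∈ Rch ρ Y v) (hw : w ∈ Y) (h : dist u w < ρ) :
    w ∈ Rch ρ Y v := Relation.ReflTransGen.tail hu ⟨hw, h⟩

theorem rch_sub {ρ : ℝ} {Y : Set X} {v : X} (hv : v ∈ Y) : Rch ρ Y v ⊆ Y := by
  intro y hy
  induction hy with
  | refl => exact hv
  | tail _ h _ => exact h.1

theorem rch_cn {ρ : ℝ} {Y : Set X} {v : X} : Cn ρ (Rch ρ Y v) := by
  intro S
  by_contra hc
  have key : ∀ y ∈ Rch ρ Y v, (y ∈ S ↔ v ∈ S) := by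
    intro y hy
    induction hy with
    | refl => rfl
    | @tail u w hu h ih =>
      rw [← ih]
      constructor
      · intro d
        by_contra e
        exact hc fun _ _ _ _ _ _ => ⟨w, rch_step hu h.1 h.2, u, hu, d, e, by rw [dist_comm]; exact h.2⟩
      · intro d
        by_contra e
        exact hc fun _ _ _ _ _ _ => ⟨u, hu, w, rch_step hu h.1 h.2, d, e, h.2⟩
  exact hc fun x hx y hy a b => (b ((key y hy).2 ((key x hx).1 a))).elim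

variable [CompactSpace X]

theorem gap {A B : Set X} (hA : IsClosed A) (hB : IsClosed B) (h : Disjoint A B) :
    ∃ γ > 0, ∀ x ∈ A, ∀ y ∈ B, γ ≤ dist x y := by
  obtain ⟨γ, h0, h1⟩ := hA.isCompact.exists_thickening_subset_open hB.isOpen_compl
    (disjoint_left.1 h)
  refine ⟨γ, h0, fun x hx y hy => not_lt.1 fun c => ?_⟩
  exact h1 (mem_thickening_iff.2 ⟨x, hx, by rwa [dist_comm]⟩) hy

theorem small {δ : ℝ} (h : 0 < δ) : ∀ᶠ k : ℕ in (hyperfilter ℕ : Filter ℕ), 1 / ((k : ℝ) + 1) < δ :=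
  (Nat.hyperfilter_le_atTop) (tendsto_one_div_add_atTop_nhds_zero_nat.eventually (gt_mem_nhds h))

theorem ulim (P : ℕ → Set X) (hne : ∀ k, (P k).Nonempty) (hc : ∀ k : ℕ, Cn (1 / ((k : ℝ) + 1)) (P k)) :
    ∃ A : Set X, IsClosed A ∧ IsConnected A ∧ ∀ r > 0, ∀ᶠ k in (hyperfilter ℕ : Filter ℕ),
      (∀ y ∈ P k, ∃ x ∈ A, dist y x < r) ∧ ∀ x ∈ A, ∃ y ∈ P k, dist x y < r := by
  let F : ℕ → TopologicalSpace.NonemptyCompacts X := fun k =>
    ⟨⟨closure (P k), isClosed_closure.isCompact⟩, (hne k).closure⟩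
  obtain ⟨A, -, hA⟩ := isCompact_univ.ultrafilter_le_nhds ((hyperfilter ℕ).map F) (by simp)
  have key : ∀ r > 0, ∀ᶠ k in (hyperfilter ℕ : Filter ℕ),
      (∀ y ∈ P k, ∃ x ∈ (A : Set X), dist y x < r) ∧ ∀ x ∈ (A : Set X), ∃ y ∈ P k, dist x y < r := by
    intro r hr
    have : ∀ᶠ k in (hyperfilter ℕ : Filter ℕ), F k ∈ ball A (r / 2) := hA (ball_mem_nhds A (half_pos hr))
    filter_upwards [this] with k hk
    rw [mem_ball, Metric.NonemptyCompacts.dist_eq] at hk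
    have fin := hausdorffEDist_ne_top_of_nonempty_of_bounded (F k).nonempty A.nonempty
      (F k).isCompact.isBounded A.isCompact.isBounded
    refine ⟨fun y hy => ?_, fun x hx => ?_⟩
    · obtain ⟨x, hx, h⟩ := exists_dist_lt_of_hausdorffDist_lt (subset_closure hy) hk fin
      exact ⟨x, hx, by linarith⟩
    · obtain ⟨y, hy, h⟩ := exists_dist_lt_of_hausdorffDist_lt' hx hk fin
      obtain ⟨z, hz, h'⟩ := Metric.mem_closure_iff.1 hy (r / 2) (half_pos hr)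
      refine ⟨z, hz, ?_⟩
      have := dist_triangle_left x z y
      linarith
  refine ⟨A, A.isCompact.isClosed, ⟨A.nonempty, ?_⟩, key⟩
  rw [isPreconnected_iff_subset_of_fully_disjoint_closed A.isCompact.isClosed]
  intro u v hu hv huv hd
  by_contra hcon
  push Not at hcon
  obtain ⟨y, hy, hy'⟩ := not_subset.1 hcon.1
  obtain ⟨x, hx, hx'⟩ := not_subset.1 hcon.2
  have hxu : x ∈ u := (huv hx).resolve_right hx'
  have hyv : y ∈ v := (huv hy).resolve_left hy'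
  obtain ⟨γ, h0, hγ⟩ := gap hu hv hd
  obtain ⟨k, ⟨h1, h2⟩, h3⟩ := ((key (γ / 3) (by linarith)).and (small (δ := γ / 3) (by linarith))).exists
  obtain ⟨x', hx1, hx2⟩ := h2 x hx
  obtain ⟨y', hy1, hy2⟩ := h2 y hy
  obtain ⟨a, ha, b, hb, ⟨p, hp, c⟩, d, e⟩ := hc k {z | ∃ p ∈ u, dist z p < γ / 3} x' hx1 y' hy1
    ⟨x, hxu, by rwa [dist_comm]⟩ (by
      rintro ⟨p, hp, c⟩
      have := hγ p hp y hyv
      have := dist_triangle_left p y y'
      rw [dist_comm] at hy2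
      linarith)
  obtain ⟨q, hq, f⟩ := h1 b hb
  rcases huv hq with g | g
  · exact d ⟨q, g, f⟩
  · have := hγ p hp q g
    have := dist_triangle4 p a b q
    rw [dist_comm] at c
    linarith

def HC (X : Type) [MetricSpace X] : Prop :=
  ∀ K : Set X, IsClosed K → IsConnected K → K ≠ Set.univ →
      ∀ ε : ℝ, ε > 0 → ∃ (n : ℕ) (U : Fin n → Set X),
        (∀ i, IsOpen (U i)) ∧ (∀ i, Metric.diam (U i ∩ K) < ε) ∧ K ⊆ (⋃ i, U i) ∧
        (∀ i j : Fin n, (U i ∩ U j ∩ K).Nonempty ↔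
          ((i : ℕ) ≤ (j : ℕ) + 1 ∧ (j : ℕ) ≤ (i : ℕ) + 1))

theorem cf (H : HC X) {K : Set X} (h1 : IsClosed K) (h2 : IsConnected K) (h3 : K ≠ univ) {η : ℝ}
    (hη : 0 < η) : ∃ ρ > 0, ∃ φ : X → ℤ, Ch ρ η φ {y | ∃ x ∈ K, dist y x < ρ} := by
  classical
  obtain ⟨n, U, ho, hd, hc, hi⟩ := H K h1 h2 h3 (η / 2) (half_pos hη)
  obtain ⟨l, hl, hL⟩ := lebesgue_number_lemma_of_metric h1.isCompact ho hc
  have : ∀ y : X, ∃ t : ℤ, (∃ x ∈ K, dist y x < min (l / 3) (η / 4)) →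
      ∃ x ∈ K, dist y x < min (l / 3) (η / 4) ∧ ∃ i : Fin n, ball x l ⊆ U i ∧ t = (i : ℕ) := by
    intro y
    by_cases h : ∃ x ∈ K, dist y x < min (l / 3) (η / 4)
    · obtain ⟨x, hx, h⟩ := h
      obtain ⟨i, hi⟩ := hL x hx
      exact ⟨(i : ℕ), fun _ => ⟨x, hx, h, i, hi, rfl⟩⟩
    · exact ⟨0, fun h' => (h h').elim⟩
  choose φ hφ using this
  have m1 := min_le_left (l / 3) (η / 4)
  have m2 := min_le_right (l / 3) (η / 4)
  refine ⟨min (l / 3) (η / 4), by positivity, φ, fun y hy y' hy' h => ?_, fun y hy y' hy' h => ?_⟩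
  · obtain ⟨x, hx, a, i, b, c⟩ := hφ y hy
    obtain ⟨x', hx', a', i', b', c'⟩ := hφ y' hy'
    have : x' ∈ ball x l := by
      have := dist_triangle4 x' y' y x
      rw [mem_ball]
      rw [dist_comm] at a' h
      linarith
    have := (hi i i').1 ⟨x', ⟨b this, b' (mem_ball_self hl)⟩, hx'⟩
    omega
  · obtain ⟨x, hx, a, i, b, c⟩ := hφ y hy
    obtain ⟨x', hx', a', i', b', c'⟩ := hφ y' hy'
    have e : i = i' := Fin.ext (by omega)
    subst e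
    have := dist_le_diam_of_mem (s := U i ∩ K) isBounded_of_compactSpace ⟨b (mem_ball_self hl), hx⟩
      ⟨b' (mem_ball_self hl), hx'⟩
    have := hd i
    have := dist_triangle4 y x x' y'
    rw [dist_comm] at a'
    linarith

theorem ch (H : HC X) {δ η : ℝ} (hδ : 0 < δ) (hη : 0 < η) :
    ∃ ρ > 0, ∀ R : Set X, R.Nonempty → Cn ρ R → ¬ Dn δ R → ∃ φ, Ch ρ η φ R := by
  by_contra hc
  push Not at hc
  choose R h1 h2 h3 h4 using fun k : ℕ => hc (1 / ((k : ℝ) + 1)) (by positivity)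
  obtain ⟨A, a1, a2, a3⟩ := ulim R h1 h2
  have hA : A ≠ univ := by
    rintro rfl
    obtain ⟨k, -, hk⟩ := (a3 δ hδ).exists
    exact h3 k fun x => hk x (mem_univ _)
  obtain ⟨ρ, hρ, φ, hφ⟩ := cf H a1 a2 hA hη
  obtain ⟨k, ⟨b, -⟩, c⟩ := ((a3 ρ hρ).and (small hρ)).exists
  exact h4 k φ (hφ.mono c.le b)

theorem ind (hI : ∀ A B : Set X, IsClosed A → IsConnected A → IsClosed B → IsConnected B →
    A ∪ B = univ → A = univ ∨ B = univ) {ε : ℝ} (hε : 0 < ε) :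
    ∃ δ > 0, δ ≤ ε ∧ ∀ P Q : Set X, Cn δ P → Cn δ Q → Dn δ (P ∪ Q) → Dn ε P ∨ Dn ε Q := by
  by_contra hc
  push Not at hc
  have hm : ∀ k : ℕ, min ε (1 / ((k : ℝ) + 1)) ≤ 1 / ((k : ℝ) + 1) := fun k => min_le_right _ _
  choose P Q h1 h2 h3 h4 h5 using fun k : ℕ => hc (min ε (1 / ((k : ℝ) + 1))) (by positivity)
    (min_le_left _ _)
  have nP : ∀ k, (P k).Nonempty := fun k => nonempty_iff_ne_empty.2 fun e =>
    h5 k ((h3 k).mono (min_le_left _ _) (by rw [e, empty_union]))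
  have nQ : ∀ k, (Q k).Nonempty := fun k => nonempty_iff_ne_empty.2 fun e =>
    h4 k ((h3 k).mono (min_le_left _ _) (by rw [e, union_empty]))
  obtain ⟨A, a1, a2, a3⟩ := ulim P nP fun k => (h1 k).mono (hm k)
  obtain ⟨B, b1, b2, b3⟩ := ulim Q nQ fun k => (h2 k).mono (hm k)
  have : A ∪ B = univ := by
    refine eq_univ_of_forall fun x => ?_
    rw [← (a1.union b1).closure_eq, Metric.mem_closure_iff]
    intro r hr
    obtain ⟨k, ⟨⟨c, -⟩, d, -⟩, e⟩ := (((a3 _ (half_pos hr)).and (b3 _ (half_pos hr))).and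
      (small (half_pos hr))).exists
    obtain ⟨y, hy, f⟩ := h3 k x
    have := hm k
    rcases hy with hy | hy
    · obtain ⟨z, hz, g⟩ := c y hy
      exact ⟨z, Or.inl hz, by linarith [dist_triangle x y z]⟩
    · obtain ⟨z, hz, g⟩ := d y hy
      exact ⟨z, Or.inr hz, by linarith [dist_triangle x y z]⟩
  rcases hI A B a1 a2 b1 b2 this with rfl | rfl
  · obtain ⟨k, -, hk⟩ := (a3 ε hε).exists
    exact h4 k fun x => hk x (mem_univ _)
  · obtain ⟨k, -, hk⟩ := (b3 ε hε).exists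
    exact h5 k fun x => hk x (mem_univ _)

theorem irr {a b : X} {ε : ℝ} (hε : 0 < ε)
    (h : ∀ J : Set X, IsClosed J → IsConnected J → a ∈ J → b ∈ J → Dn (ε / 2) J) :
    ∃ δ > 0, ∀ P : Set X, Cn δ P → b ∈ P → (∃ y ∈ P, dist a y < δ) → Dn ε P := by
  by_contra hc
  push Not at hc
  choose P h1 h2 h3 h4 using fun k : ℕ => hc (1 / ((k : ℝ) + 1)) (by positivity)
  obtain ⟨A, a1, a2, a3⟩ := ulim P (fun k => ⟨b, h2 k⟩) h1
  have hb : b ∈ A := by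
    rw [← a1.closure_eq, Metric.mem_closure_iff]
    intro r hr
    obtain ⟨k, c, -⟩ := (a3 r hr).exists
    exact c b (h2 k)
  have ha : a ∈ A := by
    rw [← a1.closure_eq, Metric.mem_closure_iff]
    intro r hr
    obtain ⟨k, ⟨c, -⟩, d⟩ := ((a3 _ (half_pos hr)).and (small (half_pos hr))).exists
    obtain ⟨y, hy, e⟩ := h3 k
    obtain ⟨z, hz, f⟩ := c y hy
    exact ⟨z, hz, by linarith [dist_triangle a y z]⟩
  obtain ⟨k, -, c⟩ := (a3 _ (half_pos hε)).exists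
  refine h4 k fun x => ?_
  obtain ⟨y, hy, d⟩ := h A a1 a2 ha hb x
  obtain ⟨z, hz, e⟩ := c y hy
  exact ⟨z, hz, by linarith [dist_triangle x y z]⟩

end Pool.Agent.H.MP_385b3e_gt
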