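import Pool.Agent.H.MP_385b3e_gt.A
set_option autoImplicit false
open Set Filter Metric Topology

namespace Pool.Agent.H.MP_385b3e_gt
variable {X : Type} [MetricSpace X] [CompactSpace X]

def HT (X : Type) [MetricSpace X] : Prop :=
  ∀ ε : ℝ, ε > 0 → ∃ (n : ℕ) (U : Fin n → Set X),
        (∀ i, IsOpen (U i)) ∧ (∀ i, Metric.diam (U i) < ε) ∧ (⋃ i, U i) = Set.univ ∧
        (∀ i j k, i ≠ j → j ≠ k → i ≠ k → U i ∩ U j ∩ U k = ∅) ∧
        (SimpleGraph.fromRel (fun i j => (U i ∩ U j).Nonempty)).IsTree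

theorem tree (H : HT X) {μ : ℝ} (hμ : 0 < μ) : ∃ (n : ℕ) (U : Fin n → Set X) (G : SimpleGraph (Fin n))
    (ρ : ℝ), 0 < ρ ∧ G.IsTree ∧ (∀ i, ∀ x ∈ U i, ∀ y ∈ U i, dist x y < μ) ∧
    (∀ x y, dist x y < ρ → ∃ i, x ∈ U i ∧ y ∈ U i) ∧
    (∀ i j x, x ∈ U i → x ∈ U j → i = j ∨ G.Adj i j) ∧ ∀ i j, G.Adj i j → (U i ∩ U j).Nonempty := by
  obtain ⟨n, U, ho, hd, hc, -, ht⟩ := H μ hμ
  obtain ⟨l, hl, hL⟩ := lebesgue_number_lemma_of_metric isCompact_univ ho hc.ge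
  refine ⟨n, U, _, l, hl, ht, fun i x hx y hy =>
    (dist_le_diam_of_mem isBounded_of_compactSpace hx hy).trans_lt (hd i), fun x y h => ?_,
    fun i j x hi hj => ?_, fun i j h => ?_⟩
  · obtain ⟨i, hi⟩ := hL y (mem_univ _)
    exact ⟨i, hi h, hi (mem_ball_self hl)⟩
  · by_cases e : i = j
    · exact Or.inl e
    · exact Or.inr ((SimpleGraph.fromRel_adj _ _ _).2 ⟨e, Or.inl ⟨x, hi, hj⟩⟩)
  · rcases ((SimpleGraph.fromRel_adj _ _ _).1 h).2 with h | h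
    · exact h
    · rwa [inter_comm]

theorem hud (H : HT X) {μ : ℝ} (hμ : 0 < μ) : ∃ ρ > 0, ∀ P Q : Set X, Cn ρ P → Cn ρ Q →
    ∀ S : Set X, ∀ x ∈ P, ∀ y ∈ P, x ∈ Q → y ∈ Q → x ∈ S → y ∉ S → ∃ u ∈ P, ∃ w ∈ P, u ∈ S ∧ w ∉ S ∧
      dist u w < μ ∧ (∃ q ∈ Q, dist u q < μ) ∧ ∃ q ∈ Q, dist w q < μ := by
  classical
  obtain ⟨n, U, G, ρ, h0, ht, hd, hl, ha, hb⟩ := tree H (half_pos hμ)
  have wk : ∀ P : Set X, Cn ρ P → ∀ i j, ∀ x ∈ P, ∀ y ∈ P, x ∈ U i → y ∈ U j →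
      ∃ p : G.Walk i j, ∀ k ∈ p.support, (U k ∩ P).Nonempty := by
    intro P hP i j x hx y hy hi hj
    have ext : ∀ k k' z, z ∈ U k → z ∈ U k' → z ∈ P → ∀ p : G.Walk k i,
        (∀ k ∈ p.support, (U k ∩ P).Nonempty) →
        ∃ p : G.Walk k' i, ∀ k ∈ p.support, (U k ∩ P).Nonempty := by
      intro k k' z a b c p hp
      rcases ha k' k z b a with rfl | h
      · exact ⟨p, hp⟩
      · refine ⟨SimpleGraph.Walk.cons h p, fun m hm => ?_⟩
        rw [SimpleGraph.Walk.support_cons, List.mem_cons] at hm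
        rcases hm with rfl | hm
        · exact ⟨z, b, c⟩
        · exact hp m hm
    have : y ∈ {z | ∃ k, z ∈ U k ∧ ∃ p : G.Walk k i, ∀ k ∈ p.support, (U k ∩ P).Nonempty} := by
      by_contra hc
      obtain ⟨u, hu, w, hw, ⟨k, a, p, hp⟩, b, c⟩ := hP _ x hx y hy
        (⟨i, hi, SimpleGraph.Walk.nil, fun k hk => by
          rw [SimpleGraph.Walk.support_nil, List.mem_singleton] at hk
          exact hk ▸ ⟨x, hi, hx⟩⟩ : x ∈ {z | ∃ k, z ∈ U k ∧ ∃ p : G.Walk k i,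
            ∀ k ∈ p.support, (U k ∩ P).Nonempty}) hc
      obtain ⟨k', d, e⟩ := hl u w c
      exact b ⟨k', e, ext k k' u a d hu p hp⟩
    obtain ⟨k, a, p, hp⟩ := this
    obtain ⟨p, hp⟩ := ext k j y a hj hy p hp
    exact ⟨p.reverse, fun k hk => hp k (by simpa using hk)⟩
  refine ⟨ρ, h0, fun P Q hP hQ S x hx y hy hx' hy' hS hS' => ?_⟩
  obtain ⟨i, hi, -⟩ := hl x x (by simpa using h0)
  obtain ⟨j, hj, -⟩ := hl y y (by simpa using h0)
  obtain ⟨p, hp⟩ := wk P hP i j x hx y hy hi hj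
  obtain ⟨q, hq⟩ := wk Q hQ i j x hx' y hy' hi hj
  have e : p.bypass = q.bypass := congrArg Subtype.val
    (ht.isAcyclic.path_unique ⟨_, p.bypass_isPath⟩ ⟨_, q.bypass_isPath⟩)
  have h1 : ∀ k ∈ p.bypass.support, (U k ∩ P).Nonempty ∧ (U k ∩ Q).Nonempty := fun k hk =>
    ⟨hp k (p.support_bypass_subset_support hk), hq k (q.support_bypass_subset_support (e ▸ hk))⟩
  generalize p.bypass = r at h1
  clear hp hq e p q hx' hy'
  induction r generalizing x with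
  | @nil i =>
    obtain ⟨-, q, a, b⟩ := h1 i (by simp)
    exact ⟨x, hx, y, hy, hS, hS', by linarith [hd i x hi y hj], ⟨q, b, by linarith [hd i x hi q a]⟩,
      q, b, by linarith [hd i y hj q a]⟩
  | @cons i i' j h r ih =>
    obtain ⟨-, q, a, b⟩ := h1 i (by simp)
    obtain ⟨⟨z, c, d⟩, q', a', b'⟩ := h1 i' (by simp)
    by_cases hz : z ∈ S
    · exact ih z d hz c hj fun k hk => h1 k (by simp [hk])
    · obtain ⟨t, t1, t2⟩ := hb i i' h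
      exact ⟨x, hx, z, d, hS, hz, by linarith [hd i x hi t t1, hd i' t t2 z c, dist_triangle x t z],
        ⟨q, b, by linarith [hd i x hi q a]⟩, q', b', by linarith [hd i' z c q' a']⟩

theorem hu (H : HT X) {A B : Set X} (a1 : IsClosed A) (a2 : IsPreconnected A) (b1 : IsClosed B)
    (b2 : IsPreconnected B) : IsPreconnected (A ∩ B) := by
  rw [isPreconnected_iff_subset_of_fully_disjoint_closed (a1.inter b1)]
  intro u v hu hv huv hd
  by_contra hcon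
  push Not at hcon
  obtain ⟨y, hy, hy'⟩ := not_subset.1 hcon.1
  obtain ⟨x, hx, hx'⟩ := not_subset.1 hcon.2
  have hxu : x ∈ u := (huv hx).resolve_right hx'
  have hyv : y ∈ v := (huv hy).resolve_left hy'
  obtain ⟨γ, h0, hγ⟩ := gap hu hv hd
  obtain ⟨β, b0, hβ⟩ := gap (a1.sdiff (isOpen_thickening (δ := γ / 3) (E := u ∪ v))) b1 (by
    rw [disjoint_left]
    rintro z ⟨c, d⟩ e
    exact d (self_subset_thickening (by linarith) _ (huv ⟨c, e⟩)))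
  obtain ⟨ρ, r0, hρ⟩ := hud H (μ := min β (γ / 3)) (by positivity)
  have m1 := min_le_left β (γ / 3)
  have m2 := min_le_right β (γ / 3)
  obtain ⟨a, ha, b, hb, ⟨p, hp, c⟩, d, e, -, q, hq, f⟩ := hρ A B (cn_pre a2 r0) (cn_pre b2 r0)
    {z | ∃ p ∈ u, dist z p < γ / 3} x hx.1 y hy.1 hx.2 hy.2 ⟨x, hxu, by simpa using h0⟩ (by
      rintro ⟨p, hp, c⟩
      have := hγ p hp y hyv
      rw [dist_comm] at c
      linarith)
  have : b ∈ thickening (γ / 3) (u ∪ v) := by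
    by_contra g
    have := hβ b ⟨hb, g⟩ q hq
    linarith
  obtain ⟨s, hs, g⟩ := mem_thickening_iff.1 this
  rcases hs with hs | hs
  · exact d ⟨s, hs, g⟩
  · have := hγ p hp s hs
    have := dist_triangle4 p a b s
    rw [dist_comm] at c
    linarith

theorem pt_gap {A : Set X} (hA : IsClosed A) {c : X} (h : c ∉ A) : ∃ γ > 0, ∀ y ∈ A, γ ≤ dist c y := by
  obtain ⟨γ, h0, h1⟩ := gap isClosed_singleton hA (disjoint_singleton_left.2 h)
  exact ⟨γ, h0, h1 c rfl⟩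

def Btw (a c b : X) : Prop := ∀ J : Set X, IsClosed J → IsConnected J → a ∈ J → b ∈ J → c ∈ J

theorem three (H : HT X) (H' : HC X) (a b c : X) : Btw a c b ∨ Btw b a c ∨ Btw a b c := by
  by_contra hc
  simp only [Btw, not_or, not_forall] at hc
  obtain ⟨⟨I, I1, I2, Ia, Ib, Ic⟩, ⟨J, J1, J2, Jb, Jc, Ja⟩, K, K1, K2, Ka, Kc, Kb⟩ := hc
  have h1 := hu H I1 I2.2 (K1.union J1) (K2.2.union c Kc Jc J2.2)
  obtain ⟨v, ⟨vI, -⟩, vK, vJ⟩ := isPreconnected_closed_iff.1 h1 K J K1 J1 inter_subset_right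
    ⟨a, ⟨Ia, Or.inl Ka⟩, Ka⟩ ⟨b, ⟨Ib, Or.inr Jb⟩, Jb⟩
  obtain ⟨δ, d0, hδ⟩ := pt_gap I1 Ic
  obtain ⟨α, a0, hα⟩ := pt_gap J1 Ja
  obtain ⟨β, b0, hβ⟩ := pt_gap K1 Kb
  obtain ⟨η, e0, e1, e2, e3⟩ : ∃ η > 0, η < δ / 3 ∧ η < α ∧ η < β :=
    ⟨min (δ / 4) (min (α / 2) (β / 2)), by positivity, (min_le_left _ _).trans_lt (by linarith),
      ((min_le_right _ _).trans (min_le_left _ _)).trans_lt (by linarith),
      ((min_le_right _ _).trans (min_le_right _ _)).trans_lt (by linarith)⟩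
  obtain ⟨ρ0, r0, hρ⟩ := ch H' (δ := δ / 3) (by linarith) e0
  obtain ⟨ρ, r1, r2, r3⟩ : ∃ ρ > 0, ρ ≤ ρ0 ∧ ρ ≤ δ / 3 :=
    ⟨min ρ0 (δ / 3), by positivity, min_le_left _ _, min_le_right _ _⟩
  have hv : v ∈ (K ∩ J) \ ball c (δ / 3) := ⟨⟨vK, vJ⟩, by
    have := hδ v vI
    rw [mem_ball, dist_comm]
    linarith⟩
  have hs := rch_sub (ρ := ρ) hv
  set S := Rch ρ ((K ∩ J) \ ball c (δ / 3)) v with hS
  obtain ⟨c', hc', w, hw, c1, c2, c3⟩ := cn_pre (hu H K1 K2.2 J1 J2.2) r1 S v ⟨vK, vJ⟩ c ⟨Kc, Jc⟩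
    rch_self fun h => (hs h).2 (mem_ball_self (by linarith))
  have c4 : dist w c < δ / 3 := by
    by_contra h
    exact c2 (rch_step c1 ⟨hw, h⟩ c3)
  have cS : Cn ρ0 S := rch_cn.mono r2
  obtain ⟨φ, hφ⟩ := hρ (I ∪ S) ⟨a, Or.inl Ia⟩ ((cn_pre I2.2 r0).union cS vI rch_self) (by
    intro h
    obtain ⟨y, hy, h⟩ := h c
    rcases hy with hy | hy
    · linarith [hδ y hy]
    · exact (hs hy).2 (by rwa [mem_ball, dist_comm]))
  have gen : ∀ P : Set X, P ⊆ I ∪ S → Cn ρ0 P → ∀ x ∈ P, ∀ y ∈ P, ∀ z ∈ I ∪ S,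
      (∀ p ∈ P, η < dist z p) → ¬ (φ x ≤ φ z ∧ φ z ≤ φ y) := by
    rintro P p1 p2 x hx y hy z hz p3 ⟨p4, p5⟩
    obtain ⟨p, hp, e⟩ := ivt p2 (hφ.mono le_rfl p1) hx hy p4 p5
    exact (p3 p hp).not_ge (hφ.2 z hz p (p1 hp) e.symm)
  have g1 := fun x hx y hy => gen I subset_union_left (cn_pre I2.2 r0) x hx y hy c' (Or.inr c1) (by
    intro p hp
    have := hδ p hp
    have := dist_triangle4 c w c' p
    rw [dist_comm] at c3 c4
    linarith)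
  have g2 := fun x hx y hy => gen ((I ∩ J) ∪ S) (union_subset_union_left _ inter_subset_left)
    ((cn_pre (hu H I1 I2.2 J1 J2.2) r0).union cS ⟨vI, vJ⟩ rch_self) x hx y hy a (Or.inl Ia) (by
    rintro p (hp | hp)
    · linarith [hα p hp.2]
    · linarith [hα p (hs hp).1.2])
  have g3 := fun x hx y hy => gen ((I ∩ K) ∪ S) (union_subset_union_left _ inter_subset_left)
    ((cn_pre (hu H I1 I2.2 K1 K2.2) r0).union cS ⟨vI, vK⟩ rch_self) x hx y hy b (Or.inl Ib) (by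
    rintro p (hp | hp)
    · linarith [hβ p hp.2]
    · linarith [hβ p (hs hp).1.1])
  have := g1 a Ia b Ib
  have := g1 b Ib a Ia
  have := g2 b (Or.inl ⟨Ib, Jb⟩) c' (Or.inr c1)
  have := g2 c' (Or.inr c1) b (Or.inl ⟨Ib, Jb⟩)
  have := g3 a (Or.inl ⟨Ia, Ka⟩) c' (Or.inr c1)
  have := g3 c' (Or.inr c1) a (Or.inl ⟨Ia, Ka⟩)
  omega

theorem many (H : HT X) (H' : HC X) (x0 : X) {t : Set X} (ht : t.Finite) :
    ∃ a b : X, ∀ c ∈ t, Btw a c b := by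
  induction t, ht using Set.Finite.induction_on with
  | empty => exact ⟨x0, x0, fun _ h => h.elim⟩
  | @insert c s _ _ ih =>
    obtain ⟨a, b, h⟩ := ih
    rcases three H H' a b c with g | g | g
    · refine ⟨a, b, ?_⟩
      rintro d (rfl | hd)
      · exact g
      · exact h d hd
    · refine ⟨b, c, ?_⟩
      rintro d (rfl | hd) J J1 J2 J3 J4
      · exact J4
      · exact h d hd J J1 J2 (g J J1 J2 J3 J4) J3
    · refine ⟨a, c, ?_⟩
      rintro d (rfl | hd) J J1 J2 J3 J4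
      · exact J4
      · exact h d hd J J1 J2 J3 (g J J1 J2 J3 J4)

end Pool.Agent.H.MP_385b3e_gt
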