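import Pool.Agent.H.MP_385b3e_gt.B
set_option autoImplicit false
open Set Filter Metric Topology

namespace Pool.Agent.H.MP_385b3e_gt
variable {X : Type} [MetricSpace X] [CompactSpace X] [ConnectedSpace X]

def Goal (X : Type) [MetricSpace X] (ε : ℝ) : Prop :=
  ∃ (m n : ℕ) (D : Fin m → Set X) (c : Fin (n + 1) → Fin m),
      (∀ k, IsOpen (D k)) ∧ (∀ k, Metric.diam (D k) < ε) ∧ (⋃ k, D k) = Set.univ ∧
      Function.Injective c ∧
      (∀ i j : Fin (n + 1), (D (c i) ∩ D (c j)).Nonempty ↔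
          ((i : ℕ) ≤ (j : ℕ) + 1 ∧ (j : ℕ) ≤ (i : ℕ) + 1)) ∧
      (∀ k, k ∉ Set.range c → ∀ i : Fin (n + 1), i ≠ 0 → D k ∩ D (c i) = ∅) ∧
      (∀ x : X, ∃ i, Metric.infDist x (D (c i)) < ε)

theorem free0 {ε ρ η : ℝ} (h0 : 0 < ρ) (e0 : 0 ≤ η) (h1 : η + ρ < ε) (ψ : X → ℕ)
    (ha : ∀ y y', dist y y' < ρ → ψ y ≤ ψ y' + 1)
    (hb : ∀ y y', 1 ≤ ψ y → ψ y = ψ y' → dist y y' ≤ η) (hc : Dn ε {y | 1 ≤ ψ y})
    (hd : ∃ y, ψ y = 1) : Goal X ε := by
  classical
  have h4 : 0 < ρ / 4 := by linarith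
  obtain ⟨t, -, ht, hc'⟩ := finite_cover_balls_of_compact (isCompact_univ (X := X)) h4
  obtain ⟨r, f, hf⟩ := ht.fin_param
  have bdd : BddAbove (range ψ) := by
    obtain ⟨N, hN⟩ := (ht.image ψ).bddAbove
    refine ⟨N + 1, ?_⟩
    rintro _ ⟨y, rfl⟩
    obtain ⟨x, hx, h⟩ := mem_iUnion₂.1 (hc' (mem_univ y))
    have := ha y x (by rw [mem_ball] at h; linarith)
    have := hN ⟨x, hx, rfl⟩
    omega
  obtain ⟨y1, hy1⟩ := hd
  obtain ⟨y2, hy2⟩ := Nat.sSup_mem (s := range ψ) ⟨_, y1, rfl⟩ bdd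
  have hM : ∀ y, ψ y ≤ ψ y2 := fun y => hy2 ▸ le_csSup bdd ⟨y, rfl⟩
  obtain ⟨n, hn⟩ : ∃ n, ψ y2 = n + 1 := ⟨ψ y2 - 1, by have := hM y1; omega⟩
  let E : Fin (n + 1) → Set X := fun i => thickening (ρ / 4) {y | ψ y = i + 1}
  let O : Fin r → Set X := fun k => if ψ (f k) = 0 then ball (f k) (ρ / 4) else ∅
  have hE : ∀ i x, x ∈ E i ↔ ∃ y, ψ y = i + 1 ∧ dist x y < ρ / 4 := fun i x => mem_thickening_iff
  have step : ∀ s, 1 ≤ s → s ≤ n → ∃ u w, ψ u = s ∧ ψ w = s + 1 ∧ dist u w < ρ / 4 := by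
    intro s s1 s2
    obtain ⟨u, -, w, -, a, b, c⟩ := cn_pre isPreconnected_univ h4 {y | ψ y ≤ s} y1 (mem_univ _) y2
      (mem_univ _) (by simp only [mem_setOf_eq]; omega) (by simp only [mem_setOf_eq]; omega)
    have := ha w u (by rw [dist_comm]; linarith)
    simp only [mem_setOf_eq] at a b
    exact ⟨u, w, by omega, by omega, c⟩
  refine ⟨n + 1 + r, n, Fin.append E O, Fin.castAdd r, fun k => ?_, fun k => ?_, ?_,
    Fin.castAdd_injective _ _, fun i j => ?_, fun k hk i hi => ?_, fun x => ?_⟩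
  · refine Fin.addCases (fun i => ?_) (fun i => ?_) k
    · rw [Fin.append_left]
      exact isOpen_thickening
    · rw [Fin.append_right]
      simp only [O]
      split_ifs
      · exact isOpen_ball
      · exact isOpen_empty
  · refine Fin.addCases (fun i => ?_) (fun i => ?_) k
    · rw [Fin.append_left]
      refine (diam_le_of_forall_dist_le (C := η + ρ / 2) (by linarith) fun x hx y hy => ?_).trans_lt
        (by linarith)
      obtain ⟨p, a, b⟩ := (hE i x).1 hx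
      obtain ⟨q, c, d⟩ := (hE i y).1 hy
      have := hb p q (by omega) (by omega)
      have := dist_triangle4 x p q y
      rw [dist_comm] at d
      linarith
    · rw [Fin.append_right]
      simp only [O]
      split_ifs
      · exact (diam_ball h4.le).trans_lt (by linarith)
      · rw [diam_empty]
        linarith
  · refine eq_univ_of_forall fun x => mem_iUnion.2 ?_
    obtain ⟨y, hy, h⟩ := mem_iUnion₂.1 (hc' (mem_univ x))
    obtain ⟨k, rfl⟩ : y ∈ range f := hf.2 ▸ hy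
    by_cases e : ψ (f k) = 0
    · refine ⟨Fin.natAdd _ k, ?_⟩
      rw [Fin.append_right]
      simp only [O, if_pos e]
      exact h
    · have := hM (f k)
      refine ⟨Fin.castAdd r ⟨ψ (f k) - 1, by omega⟩, ?_⟩
      rw [Fin.append_left]
      exact (hE _ _).2 ⟨f k, by simp only; omega, h⟩
  · rw [Fin.append_left, Fin.append_left]
    constructor
    · rintro ⟨x, a, b⟩
      obtain ⟨p, a, a'⟩ := (hE _ _).1 a
      obtain ⟨q, b, b'⟩ := (hE _ _).1 b
      have := dist_triangle_left p q x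
      have := ha p q (by linarith)
      have := ha q p (by rw [dist_comm]; linarith)
      omega
    · have key : ∀ i j : Fin (n + 1), (j : ℕ) = i + 1 → (E i ∩ E j).Nonempty := by
        intro i j h
        obtain ⟨u, w, a, b, c⟩ := step (i + 1) (by omega) (by omega)
        exact ⟨u, (hE _ _).2 ⟨u, a, by simpa using h0⟩, (hE _ _).2 ⟨w, by omega, c⟩⟩
      rintro ⟨a, b⟩
      rcases lt_trichotomy (i : ℕ) j with c | c | c
      · exact key i j (by omega)
      · rw [Fin.ext c, inter_self]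
        by_cases e : (j : ℕ) = 0
        · exact ⟨y1, (hE _ _).2 ⟨y1, by omega, by simpa using h0⟩⟩
        · obtain ⟨u, w, a, b, c⟩ := step j (by omega) (by omega)
          exact ⟨w, (hE _ _).2 ⟨w, b, by simpa using h0⟩⟩
      · rw [inter_comm]
        exact key j i (by omega)
  · revert hk
    refine Fin.addCases (fun l hk => (hk ⟨l, rfl⟩).elim) (fun l _ => ?_) k
    rw [Fin.append_left, Fin.append_right]
    simp only [O]
    split_ifs with e
    · refine eq_empty_of_forall_notMem ?_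
      rintro x ⟨a, b⟩
      obtain ⟨q, b, b'⟩ := (hE _ _).1 b
      have := dist_triangle_left q (f l) x
      rw [mem_ball] at a
      have := ha q (f l) (by linarith)
      exact hi (Fin.ext (by simp only [Fin.val_zero]; omega))
    · exact empty_inter _
  · obtain ⟨y, hy, h⟩ := hc x
    have := hM y
    simp only [mem_setOf_eq] at hy
    refine ⟨⟨ψ y - 1, by omega⟩, ?_⟩
    rw [Fin.append_left]
    exact (infDist_le_dist_of_mem ((hE _ _).2 ⟨y, by simp only; omega, by simpa using h0⟩)).trans_lt h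

theorem free {ε ρ η : ℝ} (h0 : 0 < ρ) (e0 : 0 ≤ η) (h1 : η + ρ < ε) {R : Set X} {φ : X → ℤ}
    (h : Ch ρ η φ R) {j : ℤ} (hb : ∀ y ∈ R, ∀ y' ∉ R, dist y y' < ρ → φ y ≤ j)
    (hc : Dn ε {y ∈ R | j ≤ φ y}) : Goal X ε := by
  classical
  let ψ : X → ℕ := fun y => if y ∈ R then (φ y + 1 - j).toNat else 0
  have p1 : ∀ y ∈ R, ψ y = (φ y + 1 - j).toNat := fun y hy => if_pos hy
  have p2 : ∀ y ∉ R, ψ y = 0 := fun y hy => if_neg hy
  obtain ⟨x0⟩ : Nonempty X := inferInstance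
  have ex : ∃ m, ∃ y, ψ y = m + 1 := by
    obtain ⟨y, hy, -⟩ := hc x0
    have := p1 y hy.1
    have := hy.2
    exact ⟨ψ y - 1, y, by omega⟩
  have hm : ∀ y, 1 ≤ ψ y → Nat.find ex + 1 ≤ ψ y := fun y hy => by
    have := Nat.find_min' ex (m := ψ y - 1) ⟨y, by omega⟩
    omega
  have ha : ∀ y y', dist y y' < ρ → ψ y ≤ ψ y' + 1 := by
    intro y y' d
    by_cases a : y ∈ R
    · by_cases b : y' ∈ R
      · have := h.1 y a y' b d
        rw [p1 y a, p1 y' b]
        omega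
      · have := hb y a y' b d
        rw [p1 y a]
        omega
    · rw [p2 y a]
      omega
  refine free0 h0 e0 h1 (fun y => ψ y - Nat.find ex) (fun y y' d => ?_) (fun y y' a b => ?_)
    (hc.mono le_rfl fun y hy => ?_) ?_
  · have := ha y y' d
    omega
  · have c : y ∈ R := by
      by_contra c
      have := p2 y c
      omega
    have d : y' ∈ R := by
      by_contra d
      have := p2 y' d
      omega
    have := p1 y c
    have := p1 y' d
    exact h.2 y c y' d (by omega)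
  · have := p1 y hy.1
    have := hy.2
    have := hm y (by omega)
    simp only [mem_setOf_eq]
    omega
  · obtain ⟨y, hy⟩ := Nat.find_spec ex
    exact ⟨y, by omega⟩

def Con {V : Type} (G : SimpleGraph V) (L : V) (B : Set V) : Prop :=
  L ∈ B ∧ ∀ k ∈ B, Relation.ReflTransGen (fun u w => G.Adj u w ∧ w ∈ B) L k

def Pen {V : Type} (G : SimpleGraph V) (L : V) (B : Set V) : Prop :=
  ∀ k ∈ B, ∀ w, G.Adj k w → w ∉ B → k = L

theorem split {V : Type} [Finite V] {G : SimpleGraph V} (hG : G.IsTree) (D : Set V → Prop)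
    (h1 : D univ) (h2 : ∀ v, ¬ D {v}) : ∃ L l B P Q, Con G L B ∧ Pen G L B ∧ D B ∧ B = P ∪ Q ∧
      Con G L P ∧ Con G l Q ∧ ¬ D P ∧ ¬ D Q := by
  classical
  obtain ⟨v0⟩ := hG.connected.nonempty
  have ex : ∃ n, ∃ L B, Con G L B ∧ Pen G L B ∧ D B ∧ B.ncard = n := by
    refine ⟨_, v0, univ, ⟨mem_univ _, fun k _ => ?_⟩, fun _ _ _ _ h => (h (mem_univ _)).elim, h1, rfl⟩
    exact Relation.ReflTransGen.mono (r := G.Adj) (fun a b h => And.intro h (mem_univ b)) v0 k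
      ((SimpleGraph.reachable_iff_reflTransGen _ _).1 (hG.connected.preconnected v0 k))
  obtain ⟨L, B, c, p, d, e⟩ := Nat.find_spec ex
  have hmin : ∀ L' B', Con G L' B' → Pen G L' B' → B' ⊂ B → ¬ D B' := by
    intro L' B' a b c d
    have := Nat.find_min' ex ⟨L', B', a, b, d, rfl⟩
    have := ncard_lt_ncard c
    omega
  obtain ⟨l, hl, hlB⟩ : ∃ l, G.Adj L l ∧ l ∈ B := by
    by_contra hc
    refine h2 L ?_
    have : B = {L} := by
      refine eq_singleton_iff_unique_mem.2 ⟨c.1, fun k hk => ?_⟩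
      rcases (c.2 k hk).cases_head with h | ⟨w, h, -⟩
      · exact h.symm
      · exact (hc ⟨w, h⟩).elim
    exact this ▸ d
  let Q : Set V := {k | Relation.ReflTransGen (fun u w => G.Adj u w ∧ w ≠ L) l k}
  have q1 : ∀ k ∈ Q, k ≠ L ∧ k ∈ B := by
    intro k hk
    induction hk with
    | refl => exact ⟨hl.ne', hlB⟩
    | @tail u w _ h ih =>
      refine ⟨h.2, ?_⟩
      by_contra g
      exact ih.1 (p u ih.2 w h.1 g)
  have q2 : ∀ k ∈ Q, ∀ w, G.Adj k w → w ≠ L → w ∈ Q := fun k hk w a b =>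
    Relation.ReflTransGen.tail hk ⟨a, b⟩
  have q3 : Con G l Q := by
    refine ⟨Relation.ReflTransGen.refl, fun k hk => ?_⟩
    induction hk with
    | refl => exact Relation.ReflTransGen.refl
    | @tail u w hu h ih => exact ih.tail ⟨h.1, q2 u hu w h.1 h.2⟩
  have q4 : ∀ k ∈ Q, ∃ r : G.Walk l k, L ∉ r.support := by
    intro k hk
    induction hk with
    | refl => exact ⟨SimpleGraph.Walk.nil, by simpa using hl.ne⟩
    | @tail u w hu h ih =>
      obtain ⟨r, hr⟩ := ih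
      exact ⟨r.concat h.1, by simpa using ⟨hr, h.2.symm⟩⟩
  have q5 : Pen G l Q := by
    intro k hk w a b
    have : w = L := by
      by_contra g
      exact b (q2 k hk w a g)
    subst this
    obtain ⟨r, hr⟩ := q4 k hk
    have := hG.isAcyclic.path_unique
      ⟨SimpleGraph.Walk.cons hl r.bypass, (SimpleGraph.Walk.cons_isPath_iff _ _).2
        ⟨r.bypass_isPath, fun g => hr (r.support_bypass_subset_support g)⟩⟩
      ⟨SimpleGraph.Walk.cons a.symm SimpleGraph.Walk.nil, by simpa using a.ne'⟩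
    have := congrArg (fun z => z.1.support) this
    simp only [SimpleGraph.Walk.support_cons, SimpleGraph.Walk.support_nil, List.cons.injEq,
      true_and] at this
    have g := r.bypass.start_mem_support
    rw [this, List.mem_singleton] at g
    exact g.symm
  have q6 : Con G L (B \ Q) := by
    refine ⟨⟨c.1, fun g => (q1 L g).1 rfl⟩, fun k hk => ?_⟩
    have : ∀ k, Relation.ReflTransGen (fun u w => G.Adj u w ∧ w ∈ B) L k → k ∉ Q →
        Relation.ReflTransGen (fun u w => G.Adj u w ∧ w ∈ B \ Q) L k := by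
      intro k hk
      induction hk with
      | refl => exact fun _ => Relation.ReflTransGen.refl
      | @tail u w hu h ih =>
        intro g
        by_cases g' : w = L
        · subst g'
          exact Relation.ReflTransGen.refl
        · exact (ih fun g'' => g (q2 u g'' w h.1 g')).tail ⟨h.1, h.2, g⟩
    exact this k (c.2 k hk.1) hk.2
  have q7 : Pen G L (B \ Q) := by
    intro k hk w a b
    by_cases g : w ∈ B
    · have : w ∈ Q := by
        by_contra g'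
        exact b ⟨g, g'⟩
      by_contra g'
      exact hk.2 (q2 w this k a.symm g')
    · exact p k hk.1 w a g
  refine ⟨L, l, B, B \ Q, Q, c, p, d, (diff_union_of_subset fun k hk => (q1 k hk).2).symm, q6, q3,
    hmin L _ q6 q7 ⟨diff_subset, fun g => (g hlB).2 q3.1⟩,
    hmin l _ q3 q5 ⟨fun k hk => (q1 k hk).2, fun g => (q1 L (g c.1)).1 rfl⟩⟩

theorem caseI (H : HT X) (H' : HC X) (hI : ∀ A B : Set X, IsClosed A → IsConnected A → IsClosed B →
    IsConnected B → A ∪ B = univ → A = univ ∨ B = univ) {x0 x1 : X} (hx : x0 ≠ x1) {ε : ℝ}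
    (hε : 0 < ε) : Goal X ε := by
  have hγ := dist_pos.2 hx
  obtain ⟨δ0, d0, d1, hδ0⟩ := ind hI hε
  obtain ⟨δ1, d2, d3, d4⟩ : ∃ δ1 > 0, δ1 ≤ δ0 ∧ δ1 ≤ dist x0 x1 / 3 :=
    ⟨min δ0 (dist x0 x1 / 3), by positivity, min_le_left _ _, min_le_right _ _⟩
  obtain ⟨δ2, d5, d6, hδ2⟩ := ind hI d2
  obtain ⟨ρ0, r0, hρ0⟩ := ch H' d5 (η := δ1 / 2) (by linarith)
  obtain ⟨μ, m0, m1, m2⟩ : ∃ μ > 0, μ ≤ ρ0 ∧ μ ≤ δ2 :=
    ⟨min ρ0 δ2, by positivity, min_le_left _ _, min_le_right _ _⟩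
  obtain ⟨n, U, G, ρ, h0, ht, hd, hl, ha, hb⟩ := tree H m0
  have ne : ∀ i, (U i).Nonempty := by
    intro i
    obtain ⟨j, hj, -⟩ := hl x0 x0 (by simpa using h0)
    rcases ((SimpleGraph.reachable_iff_reflTransGen _ _).1
      (ht.connected.preconnected i j)).cases_head with rfl | ⟨w, h, -⟩
    · exact ⟨x0, hj⟩
    · exact (hb i w h).mono inter_subset_left
  let W : Set (Fin n) → Set X := fun I => ⋃ i ∈ I, U i
  have hW : ∀ I x, x ∈ W I ↔ ∃ i ∈ I, x ∈ U i := fun I x => by simp [W]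
  have cW : ∀ L I, Con G L I → Cn μ (W I) := by
    intro L I c S
    by_contra hc
    have one : ∀ i ∈ I, ∀ x ∈ U i, ∀ y ∈ U i, x ∈ S → y ∈ S := by
      intro i hi x hx y hy a
      by_contra b
      exact hc fun _ _ _ _ _ _ => ⟨x, (hW _ _).2 ⟨i, hi, hx⟩, y, (hW _ _).2 ⟨i, hi, hy⟩, a, b,
        hd i x hx y hy⟩
    obtain ⟨z, hz⟩ := ne L
    have key : ∀ k, Relation.ReflTransGen (fun u w => G.Adj u w ∧ w ∈ I) L k →
        ∀ y ∈ U k, (y ∈ S ↔ z ∈ S) := by
      intro k hk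
      induction hk with
      | refl => exact fun y hy => ⟨one L c.1 y hy z hz, one L c.1 z hz y hy⟩
      | @tail u w hu h ih =>
        intro y hy
        obtain ⟨t, t1, t2⟩ := hb u w h.1
        rw [← ih t t1]
        exact ⟨one w h.2 y hy t t2, one w h.2 t t2 y hy⟩
    refine hc fun x hx y hy a b => (b ?_).elim
    obtain ⟨i, hi, hx⟩ := (hW _ _).1 hx
    obtain ⟨j, hj, hy⟩ := (hW _ _).1 hy
    exact (key j (c.2 j hj) y hy).2 ((key i (c.2 i hi) x hx).1 a)
  obtain ⟨L, l, B, P, Q, cB, pB, dB, e, cP, cQ, dP, dQ⟩ := split ht (fun I => Dn δ1 (W I)) (by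
    intro x
    obtain ⟨j, hj, -⟩ := hl x x (by simpa using h0)
    exact ⟨x, (hW _ _).2 ⟨j, mem_univ _, hj⟩, by simpa using d2⟩) (by
    intro v h
    obtain ⟨y0, a0, b0⟩ := h x0
    obtain ⟨y1, a1, b1⟩ := h x1
    obtain ⟨i0, e0, c0⟩ := (hW _ _).1 a0
    obtain ⟨i1, e1, c1⟩ := (hW _ _).1 a1
    rw [mem_singleton_iff] at e0 e1
    have := hd v _ (e0 ▸ c0) _ (e1 ▸ c1)
    have := dist_triangle4 x0 y0 y1 x1
    rw [dist_comm] at b1
    linarith)
  obtain ⟨z, hz⟩ := ne L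
  have hLB : U L ⊆ W B := fun y hy => (hW _ _).2 ⟨L, cB.1, hy⟩
  obtain ⟨φ, hφ⟩ := hρ0 (W B) ⟨z, hLB hz⟩ ((cW L B cB).mono m1) (by
    intro h
    refine (hδ2 (W P) (W Q) ((cW L P cP).mono m2) ((cW l Q cQ).mono m2) ?_).elim dP dQ
    refine h.mono le_rfl ?_
    rw [e]
    exact (biUnion_union _ _ _).le)
  obtain ⟨j, hj⟩ : ∃ j : ℤ, ∀ y ∈ U L, j ≤ φ y ∧ φ y ≤ j + 1 := by
    have k := fun y hy y' hy' => hφ.1 y (hLB hy) y' (hLB hy') ((hd L y hy y' hy').trans_le m1)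
    by_cases c : ∃ y ∈ U L, φ y = φ z + 1
    · obtain ⟨y0, a, b⟩ := c
      refine ⟨φ z, fun y hy => ?_⟩
      have := k y0 a y hy
      have := k y hy z hz
      omega
    · refine ⟨φ z - 1, fun y hy => ?_⟩
      have := k z hz y hy
      have := k y hy z hz
      have : φ y ≠ φ z + 1 := fun g => c ⟨y, hy, g⟩
      omega
  obtain ⟨ρ1, s0, s1, s2, s3⟩ : ∃ ρ1 > 0, ρ1 ≤ ρ ∧ ρ1 ≤ ρ0 ∧ ρ1 ≤ δ1 / 4 :=
    ⟨min ρ (min ρ0 (δ1 / 4)), by positivity, min_le_left _ _,
      (min_le_right _ _).trans (min_le_left _ _), (min_le_right _ _).trans (min_le_right _ _)⟩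
  have bd : ∀ y ∈ W B, ∀ y' ∉ W B, dist y y' < ρ1 → y ∈ U L := by
    intro y hy y' hy' h
    obtain ⟨k, a, b⟩ := hl y y' (h.trans_le s1)
    obtain ⟨i, hi, c⟩ := (hW _ _).1 hy
    have g : k ∉ B := fun g => hy' ((hW _ _).2 ⟨k, g, b⟩)
    rcases ha i k y c a with rfl | g'
    · exact (g hi).elim
    · exact pB i hi k g' g ▸ c
  have hμ := hφ.mono m1 subset_rfl
  rcases hδ0 _ _ (side (cW L B cB) hμ (δ := δ0) (by linarith) (by linarith) (j + 1))
    (side (cW L B cB) hμ.neg (δ := δ0) (by linarith) (by linarith) (-j)) (dB.mono d3 (by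
      intro y hy
      by_cases c : j + 1 ≤ φ y
      · exact Or.inl ⟨hy, c⟩
      · exact Or.inr ⟨hy, by omega⟩)) with g | g
  · exact free s0 (by linarith) (by linarith) (hφ.mono s2 subset_rfl)
      (fun y a y' b c => (hj y (bd y a y' b c)).2) g
  · exact free s0 (by linarith) (by linarith) (hφ.mono s2 subset_rfl).neg
      (fun y a y' b c => neg_le_neg (hj y (bd y a y' b c)).1) g

theorem caseD (H : HT X) (H' : HC X) {A B : Set X} (a1 : IsClosed A) (a2 : IsConnected A)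
    (b1 : IsClosed B) (hAB : A ∪ B = univ) {a b : X} (ha : a ∉ B) (hb : b ∉ A) {ε : ℝ} (hε : 0 < ε)
    (h : ∀ J : Set X, IsClosed J → IsConnected J → a ∈ J → b ∈ J → Dn (ε / 2) J) : Goal X ε := by
  obtain ⟨δ, d0, hδ⟩ := irr hε h
  obtain ⟨α, a0, hα⟩ := pt_gap b1 ha
  obtain ⟨β, b0, hβ⟩ := pt_gap a1 hb
  have mem : ∀ x, x ∈ A ∨ x ∈ B := fun x => (hAB ▸ mem_univ x : x ∈ A ∪ B)
  obtain ⟨δ1, d1, d2, d3, d4, d5⟩ : ∃ δ1 > 0, δ1 ≤ δ / 2 ∧ δ1 ≤ α / 2 ∧ δ1 ≤ β / 2 ∧ δ1 ≤ ε / 4 :=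
    ⟨min (min (δ / 2) (α / 2)) (min (β / 2) (ε / 4)), by positivity,
      (min_le_left _ _).trans (min_le_left _ _), (min_le_left _ _).trans (min_le_right _ _),
      (min_le_right _ _).trans (min_le_left _ _), (min_le_right _ _).trans (min_le_right _ _)⟩
  obtain ⟨ρ0, r0, hρ0⟩ := ch H' d1 d1
  obtain ⟨ρ1, r1, hρ1⟩ := hud H (μ := min ρ0 δ1) (by positivity)
  have m1 := min_le_left ρ0 δ1
  have m2 := min_le_right ρ0 δ1
  obtain ⟨ρ, s0, s1, s2, s3⟩ : ∃ ρ > 0, ρ ≤ ρ0 ∧ ρ ≤ ρ1 ∧ ρ ≤ δ1 :=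
    ⟨min ρ0 (min ρ1 δ1), by positivity, min_le_left _ _,
      (min_le_right _ _).trans (min_le_left _ _), (min_le_right _ _).trans (min_le_right _ _)⟩
  have hv : b ∈ (ball a δ1)ᶜ := by
    have := hα b ((mem b).resolve_left hb)
    rw [mem_compl_iff, mem_ball, dist_comm]
    linarith
  have hs := rch_sub (ρ := ρ) hv
  set R := Rch ρ (ball a δ1)ᶜ b with hR
  have cR : Cn ρ R := rch_cn
  obtain ⟨φ, hφ⟩ := hρ0 R ⟨b, rch_self⟩ (cR.mono s1) (by
    intro g
    obtain ⟨y, hy, g⟩ := g a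
    exact hs hy (by rwa [mem_ball, dist_comm]))
  let E : Set X := {y ∈ R | ∃ y' ∉ R, dist y y' < ρ}
  have e1 : ∀ y ∈ E, dist a y < 2 * δ1 := by
    rintro y ⟨hy, y', c, d⟩
    have : dist y' a < δ1 := by
      by_contra g
      exact c (rch_step hy g d)
    have := dist_triangle_left a y y'
    rw [dist_comm] at d
    linarith
  have e2 : ∀ y ∈ E, y ∈ A := fun y hy => (mem y).resolve_right fun g => by
    linarith [hα y g, e1 y hy]
  obtain ⟨e0, -, w, -, c1, c2, c3⟩ := cn_pre isPreconnected_univ s0 R b (mem_univ _) a (mem_univ _)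
    rch_self fun g => hs g (mem_ball_self d1)
  have e3 : e0 ∈ E := ⟨c1, w, c2, c3⟩
  have e4 : ∀ x ∈ E, ∀ y ∈ E, φ x ≤ φ b → φ y < φ b := by
    intro x hx y hy g
    by_contra g'
    rcases g.eq_or_lt with g | g
    · have := hφ.2 b rch_self x hx.1 g.symm
      have := hβ x (e2 x hx)
      linarith
    obtain ⟨u, hu, w, hw, c, d, e, -, q, hq, f⟩ := hρ1 R A (cR.mono s2) (cn_pre a2.2 r1)
      {p | φ p < φ b} x hx.1 y hy.1 (e2 x hx) (e2 y hy) g g'
    have := hφ.1 w hw u hu (by rw [dist_comm]; linarith)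
    simp only [mem_setOf_eq] at c d
    have := hφ.2 b rch_self w hw (by omega)
    have := hβ q hq
    have := dist_triangle b w q
    linarith
  have fin : ∀ φ : X → ℤ, Ch ρ δ1 φ R → (∀ y ∈ E, φ y < φ b) → Goal X ε := by
    intro φ c d
    obtain ⟨j, ⟨y, hy, rfl⟩, hj⟩ := Int.exists_greatest_of_bdd (P := fun z => ∃ y ∈ E, φ y = z)
      ⟨φ b, by
        rintro _ ⟨y, hy, rfl⟩
        exact (d y hy).le⟩ ⟨_, e0, e3, rfl⟩
    refine free s0 d1.le (by linarith) c (j := φ y) (fun x hx x' hx' g => hj _ ⟨x, ⟨hx, x', hx', g⟩, rfl⟩)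
      (hδ _ (side cR c (by linarith) (by linarith) _) ⟨rch_self, (d y hy).le⟩
        ⟨y, ⟨hy.1, le_rfl⟩, by linarith [e1 y hy]⟩)
  by_cases g : φ e0 ≤ φ b
  · exact fin φ (hφ.mono s1 subset_rfl) fun y hy => e4 e0 e3 y hy g
  · refine fin _ (hφ.mono s1 subset_rfl).neg fun y hy => neg_lt_neg ?_
    by_contra g'
    exact g (e4 y hy e0 e3 (not_lt.1 g')).le

theorem main (H : HT X) (H' : HC X) {ε : ℝ} (hε : 0 < ε) : Goal X ε := by
  obtain ⟨x0⟩ : Nonempty X := inferInstance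
  by_cases hI : ∀ A B : Set X, IsClosed A → IsConnected A → IsClosed B →
    IsConnected B → A ∪ B = univ → A = univ ∨ B = univ
  · by_cases hx : ∃ x1, x0 ≠ x1
    · obtain ⟨x1, hx⟩ := hx
      exact caseI H H' hI hx hε
    · push Not at hx
      refine free0 (half_pos hε) le_rfl (by linarith) (fun _ => 1) (fun _ _ _ => by omega)
        (fun y y' _ _ => by rw [← hx y, ← hx y', dist_self]) (fun x => ⟨x, Nat.le_refl 1, by simpa⟩) ⟨x0, rfl⟩
  push Not at hI
  obtain ⟨A, B, a1, a2, b1, b2, hAB, nA, nB⟩ := hI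
  obtain ⟨b0, hb0⟩ := (ne_univ_iff_exists_notMem A).1 nA
  obtain ⟨a0, ha0⟩ := (ne_univ_iff_exists_notMem B).1 nB
  obtain ⟨t, -, ht, hc⟩ := finite_cover_balls_of_compact (isCompact_univ (X := X)) (half_pos hε)
  obtain ⟨a, b, h⟩ := many H H' x0 ((ht.insert a0).insert b0)
  have hD : ∀ J : Set X, IsClosed J → IsConnected J → a ∈ J → b ∈ J → Dn (ε / 2) J := by
    intro J j1 j2 j3 j4 x
    obtain ⟨y, hy, g⟩ := mem_iUnion₂.1 (hc (mem_univ x))
    exact ⟨y, h y (Or.inr (Or.inr hy)) J j1 j2 j3 j4, g⟩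
  have n1 : a ∈ A → b ∉ A := fun p q => hb0 (h b0 (Or.inl rfl) A a1 a2 p q)
  have n2 : a ∈ B → b ∉ B := fun p q => ha0 (h a0 (Or.inr (Or.inl rfl)) B b1 b2 p q)
  have mem : ∀ x, x ∈ A ∨ x ∈ B := fun x => (hAB ▸ mem_univ x : x ∈ A ∪ B)
  by_cases g : a ∈ B
  · exact caseD H H' b1 b2 a1 (by rwa [union_comm]) (fun p => n1 p ((mem b).resolve_right (n2 g)))
      (n2 g) hε hD
  · exact caseD H H' a1 a2 b1 hAB g (n1 ((mem a).resolve_right g)) hε hD

end Pool.Agent.H.MP_385b3e_gt
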